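import Pool.Agent.H301L.Chain

/-!
A Lerch prime other than `3, 103, 839, 2237`, namely `42447347`.

The helper files verify, by a kernel computation over the whole orbit of doubling modulo `p`, the
first two power sums of the Fermat quotients modulo `p`; the Lerch condition modulo `p ^ 3` follows.
-/

namespace Pool.Agent.Results.MP_76fadc_nt.FifthLerchPrime

/-- `p` is a Lerch prime: an odd prime such that `p ^ 3` divides
`1 ^ (p - 1) + 2 ^ (p - 1) + ... + (p - 1) ^ (p - 1) - p - (p - 1)!`. -/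
def IsLerchPrime (p : ℕ) : Prop :=
  p.Prime ∧ p ≠ 2 ∧
    (p : ℤ) ^ 3 ∣ (∑ a ∈ Finset.Icc 1 (p - 1), (a : ℤ) ^ (p - 1)) - p - ((p - 1).factorial : ℤ)

theorem isLerch {p : ℕ} (h : p = 42447347) : IsLerchPrime p :=
  ⟨by rw [h]; exact Pool.Agent.H301L.fact_p.out, by omega, Pool.Agent.H301L.lerch_divides h⟩

/-- `42447347` is a Lerch prime, and it is not one of `3, 103, 839, 2237`. -/
theorem result : IsLerchPrime 42447347 ∧ 42447347 ∉ ({3, 103, 839, 2237} : Set ℕ) :=
  ⟨isLerch rfl, by norm_num⟩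

end Pool.Agent.Results.MP_76fadc_nt.FifthLerchPrime
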